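import Pool.Agent.N98.SS.Mult
import Pool.Agent.N98.SS.Gener2

/-!
MP_602153_ag: projective flat models over the integers which are regular at the centres of
valuations, in bounded degree, in all dimensions.

The simplest case: let `X ⊆ ℙ^N_ℚ` be an integral closed subscheme of dimension `r` and degree `δ`
(for example, smooth), with the function field `F`, and let `𝒳` be its closure in `ℙ^N_ℤ`. Let `S` be
a finite set of prime numbers `p > δ ^ 2 ^ r`, and for all `p ∈ S` let `V_p` be a valuation ring of
`F`, of any rank, such that `p` is topologically nilpotent: `F = V_p[1/p]` and `|p| < 1`. So `V_p` is a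
point of the `p`-adic analytic (adic) space of `X`, which lies over the generic point of `X`. Then a
blowing-up `𝒳'` of `𝒳` in a closed subscheme of the union of the fibres over the primes `p ∈ S`, which
is a projective flat model of `X`, is regular at the centres of all `V_p`, and at the centres of all
valuation rings which contain one of the `V_p`; moreover, the fibre over `p` is a divisor with normal
crossings there. So the question has a positive answer locally at all valuations over the primes
`p > δ ^ 2 ^ r`. There is no condition on the reduction of `X` at `p`, and no condition on the rank,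
the defect or the residue fields of the valuations.

The general case: `ℤ` is replaced by a Dedekind domain `O` (for example, the ring of integers of a
number field), `𝒳 = Proj O[W]` is given by a finite set `W ⊆ F` of homogeneous coordinates, `E ⊆ F` is
a finitely generated subfield such that the restrictions of the `V_p` to `E` are discrete, or have
divergent sequences of quadratic transforms, or are log uniformizable (for example, if the
transcendence degree of `E` is at most `2`, by Cossart and Piltant), `F / E` has the transcendence
degree `r` and degree at most `δ`, and `𝒳` is defined by polynomials of degree at most `e` over `E`;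
the primes `p ∈ S` are greater than `(δ e ^ r) ^ 2 ^ r`.

The proof combines families of polynomials of bounded degree (log regular models on which all
members of a family are locally monomial; MP_5b7a2c_ag.BoundedDegreeLogUniformization) with the
blowings-up in vertical centres of the starting files. New are also: the product of the centres for
different primes, for models of bounded degree; the localizations of regular local rings are regular
(Serre), which Mathlib does not contain; normal crossings are stable under generization.

helper98; built on the library of the starting files.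
-/

set_option autoImplicit false

universe u

namespace Pool.Agent.Results.MP_602153_ag.BoundedDegreeAtValuations

open IsLocalRing Pool.Agent.W418.LU2 Pool.Agent.TH188.QS

/-- The local ring of `Spec B` at the centre of the valuation ring `V`: the fractions of elements
of `B` whose denominators are units of `V`. -/
def centreRing {F : Type u} [Field F] (V : ValuationSubring F) (B : Subring F) : Subring F where
  carrier := {x | ∃ a ∈ B, ∃ b ∈ B, b ≠ 0 ∧ b⁻¹ ∈ V ∧ x = a * b⁻¹}
  mul_mem' := (lo V.toSubring B).mul_mem'
  one_mem' := (lo V.toSubring B).one_mem'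
  add_mem' := (lo V.toSubring B).add_mem'
  zero_mem' := (lo V.toSubring B).zero_mem'
  neg_mem' := (lo V.toSubring B).neg_mem'

/-- The quadratic transform of `Q` along `V`: the local ring, at the centre of `V`, of the
blowing-up of `Spec Q` in the centre of `V`. -/
def quadraticTransform {K : Type u} [Field K] (V : ValuationSubring K) (Q : Subring K) :
    Subring K :=
  centreRing V (Subring.closure ((Q : Set K) ∪ {t | ∃ y ∈ Q, ∃ z ∈ Q,
    V.valuation y < 1 ∧ z ≠ 0 ∧ V.valuation z < 1 ∧
      (∀ w ∈ Q, V.valuation w < 1 → V.valuation w ≤ V.valuation z) ∧ t = y / z}))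

/-- The sequence of quadratic transforms of the local ring of `Spec A` at the centre of `V`. -/
def quadraticSequence {K : Type u} [Field K] (V : ValuationSubring K) (A : Subring K) :
    ℕ → Subring K
  | 0 => centreRing V A
  | n + 1 => quadraticTransform V (quadraticSequence V A n)

/-- The values of the maximal ideals in the sequence of quadratic transforms have an infinite sum:
every value of `V` is exceeded by the value of all products `z 0 * ... * z (n - 1)` of elements
`z i` of the maximal ideals of the rings of the sequence, for some `n`. -/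
def IsDivergent {K : Type u} [Field K] (V : ValuationSubring K) (A : Subring K) : Prop :=
  ∀ x : K, x ≠ 0 → ∃ n : ℕ, ∀ z : ℕ → K,
    (∀ i < n, z i ∈ quadraticSequence V A i ∧ z i ≠ 0 ∧ V.valuation (z i) < 1) →
      V.valuation (∏ i ∈ Finset.range n, z i) < V.valuation x

/-- The coordinate ring `O[v / w : v ∈ W]` of the chart `w ≠ 0` of the projective `O`-scheme
`Proj O[W]` with the function field `K` and the homogeneous coordinates `W ⊆ K`. -/
def chart {K : Type u} [Field K] (O : Subring K) (W : Set K) (w : K) : Subring K :=
  Subring.closure ((O : Set K) ∪ {z | ∃ v ∈ W, z = v / w})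

/-- `Y` is a finite set of forms of some degree `d` over `O` in the homogeneous coordinates `W`,
and `N ^ n` times any form of degree `d` is a linear combination of the forms in `Y`, for some `n`.
So the closed subscheme of `Proj O[W]` defined by the forms in `Y` is contained in the zero set of
`N`. -/
def IsVerticalCentre {K : Type u} [Field K] (O : Subring K) (N : K) (W Y : Set K) : Prop :=
  Y.Finite ∧ ∃ d n : ℕ, Y ⊆ ((Submodule.span O W) ^ d : Submodule O K) ∧
    ∀ z ∈ (Submodule.span O W) ^ d, N ^ n * z ∈ Submodule.span O Y

/-- The homogeneous coordinates of the blowing-up of `Proj O[W]` in the closed subscheme which is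
defined by the forms in `Y`. -/
def blowUpCoordinates {K : Type u} [Field K] (W Y : Set K) : Set K :=
  {z | ∃ y ∈ Y, ∃ v ∈ W, z = y * v}

/-- `P` is a regular local ring, and `p` is a unit times a product of powers of elements of a regular
system of parameters `x`. -/
def HasNormalCrossings {K : Type u} [Field K] (P : Subring K) (p : K) : Prop :=
  ∃ (_ : IsRegularLocalRing P) (n : ℕ) (x : Fin n → P) (e : Fin n → ℕ) (c : Pˣ),
    Ideal.span (Set.range x) = IsLocalRing.maximalIdeal P ∧ ringKrullDim P = n ∧
      p = ((c : P) : K) * ∏ i, (x i : K) ^ e i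

/-- The projective scheme `Proj O[W]` is regular at the centre of `V`, which lies in the chart
`w ≠ 0`, and the zero set of `p` is a divisor with normal crossings there. -/
def IsRegularAtCentre {K : Type u} [Field K] (V : ValuationSubring K) (O : Subring K) (W : Set K)
    (p : K) : Prop :=
  ∃ w ∈ W, w ≠ 0 ∧ (∀ v ∈ W, v / w ∈ V) ∧ HasNormalCrossings (centreRing V (chart O W w)) p

/-- The chart `A[I / f]` of the blowing-up of `Spec A` in the ideal `I`. -/
def blowUpChart {F : Type u} [Field F] (A : Subring F) (I : Ideal A) (f : A) : Subring F :=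
  Subring.closure ((A : Set F) ∪ {z | ∃ a ∈ I, z = (a : F) / (f : F)})

/-- `P` is a regular local ring and the zero set of `J` is a divisor with strict normal
crossings: the radical of `J` is generated by the product of some of the elements of a regular
system of parameters. -/
def RegularPair (P : Type u) [CommRing P] (J : Ideal P) : Prop :=
  ∃ (_ : IsRegularLocalRing P) (n : ℕ) (x : Fin n → P) (s : Finset (Fin n)),
    Ideal.span (Set.range x) = IsLocalRing.maximalIdeal P ∧ ringKrullDim P = n ∧
      J.radical = Ideal.span {∏ i ∈ s, x i}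

/-- The blowing-up of `X = Spec A` in `V(I)` is a log desingularization of `(X, V(D))` along the
valuation ring `V`. Here `f ∈ I` generates `I V`, the centre of the lift of the valuation lies in
the chart `Spec A[I / f]`, and the ideal `D I` defines the preimage of `V(D) ∪ V(I)`. -/
def IsLogDesingularization {F : Type u} [Field F] (V : ValuationSubring F) (A : Subring F)
    (D I : Ideal A) : Prop :=
  ∃ f ∈ I, f ≠ 0 ∧ (∀ a ∈ I, (a : F) / (f : F) ∈ V) ∧
    RegularPair (centreRing V (blowUpChart A I f))
      (Ideal.span {z | ∃ a ∈ D * I, (z : F) = (a : F)})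

/-- The valuation ring `V` is log uniformizable on `Spec A`. (The blowings-up in the ideals
`I₀ * I₁` are cofinal: the blowing-up in `I₀ * I₁` factors through the blowing-up in `I₀`.) -/
def IsLogUniformizable {F : Type u} [Field F] (V : ValuationSubring F) (A : Subring F) : Prop :=
  ∀ D I₀ : Ideal A, D ≠ ⊥ → I₀ ≠ ⊥ →
    ∃ I₁ : Ideal A, I₁ ≠ ⊥ ∧ IsLogDesingularization V A D (I₀ * I₁)

/-- Every element of the field `K` is a fraction of elements of `A`. -/
def HasFractionField {K : Type u} [Field K] (A : Subring K) : Prop :=
  ∀ z : K, ∃ a ∈ A, ∃ b ∈ A, b ≠ 0 ∧ z = a * b⁻¹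

/-- `V` is a discrete valuation ring, or the sequence of quadratic transforms of `Spec A` along `V`
is divergent for all `O`-algebras `A ⊆ V` of finite type, or `V` is log uniformizable on `Spec A` for
all `O`-algebras `A ⊆ V` of finite type with the fraction field `K`. -/
def IsAdmissible {K : Type u} [Field K] (O : Subring K) (V : ValuationSubring K) : Prop :=
  IsDiscreteValuationRing V ∨
    (∀ T : Set K, T.Finite → Subring.closure ((O : Set K) ∪ T) ≤ V.toSubring →
      IsDivergent V (Subring.closure ((O : Set K) ∪ T))) ∨
    ∀ T : Set K, T.Finite → Subring.closure ((O : Set K) ∪ T) ≤ V.toSubring →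
      HasFractionField (Subring.closure ((O : Set K) ∪ T)) →
      IsLogUniformizable V (Subring.closure ((O : Set K) ∪ T))

/-- The values at the point `x` of the polynomials over `E` of total degree at most `t`. -/
noncomputable def values (E : Type u) {K : Type u} [Field E] [Field K] [Algebra E K] {N : ℕ}
    (x : Fin N → K) (t : ℕ) : Submodule E K :=
  (MvPolynomial.restrictTotalDegree (Fin N) E t).map
    (MvPolynomial.aeval x : MvPolynomial (Fin N) E →ₐ[E] K).toLinearMap

/-- The variety in the affine space over `E` with the generic point `x` (the zeros of the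
polynomials which vanish at `x`), whose function field is `K`, has dimension `r` and degree at
most `δ`: its Hilbert function, the dimension of the space of the polynomial functions of degree
at most `t` on the variety, is at most `δ * t ^ r / r! + O (t ^ (r - 1))`. -/
def DegreeAtMost (E : Type u) {K : Type u} [Field E] [Field K] [Algebra E K] {N : ℕ}
    (x : Fin N → K) (r δ : ℕ) : Prop :=
  IntermediateField.adjoin E (Set.range x) = ⊤ ∧ Algebra.trdeg E K = r ∧
    ∃ C : ℕ, ∀ t : ℕ, r.factorial * Module.finrank E (values E x t) ≤ δ * (t + C) ^ r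

/-- The element `z` is a product of (positive or negative) powers of polynomials of degree at most
`e` in the `x j` with coefficients in `E`. -/
def IsProduct (E : Type u) {K : Type u} [Field E] [Field K] [Algebra E K] {N : ℕ}
    (x : Fin N → K) (e : ℕ) (z : K) : Prop :=
  ∃ (q : ℕ) (P : Fin q → MvPolynomial (Fin N) E) (n : Fin q → ℤ),
    (∀ i, (P i).totalDegree ≤ e) ∧ z = ∏ i, MvPolynomial.aeval x (P i) ^ n i

/-- The element `z` is a fraction of elements of `A` whose denominator is a product of (positive or
negative) powers of polynomials of degree at most `e` in the `x j` with coefficients in `E`. -/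
def IsFraction (E : Type u) {K : Type u} [Field E] [Field K] [Algebra E K] {N : ℕ}
    (x : Fin N → K) (e : ℕ) (A : Subring K) (z : K) : Prop :=
  ∃ b ∈ A, b ≠ 0 ∧ IsProduct E x e b ∧ b * z ∈ A

/-- The homogeneous coordinates `W` of the projective `O`-scheme `𝒳 = Proj O[W]` are products of
powers of polynomials of degree at most `e` in the `x j` over `E`, and the `x j` and some elements
which generate the field `E` over `O` are fractions of elements of the coordinate ring of every
chart `w ≠ 0` whose denominators are such products. (So `K` is the function field of `𝒳`.) -/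
def IsDefinedInDegree {K : Type u} [Field K] (O : Subring K) (E : Subfield K) {N : ℕ}
    (x : Fin N → K) (e : ℕ) (W : Set K) : Prop :=
  (∃ w ∈ W, w ≠ 0) ∧ (∀ z ∈ W, IsProduct E x e z) ∧
    ∃ T : Set K, T.Finite ∧ E = Subfield.closure ((O : Set K) ∪ T) ∧
      ∀ w ∈ W, w ≠ 0 → (∀ j, IsFraction E x e (chart O W w) (x j)) ∧
        ∀ t ∈ T, IsFraction E x e (chart O W w) t

lemma quadraticSequence_eq {K : Type u} [Field K] (V : ValuationSubring K) (A : Subring K) :
    quadraticSequence V A = qseq V A := by
  funext n
  induction n with
  | zero => rfl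
  | succ n ih =>
    change quadraticTransform V (quadraticSequence V A n) = qt V.toSubring (qseq V A n)
    rw [ih, qt_val]
    rfl

lemma IsDivergent.dv {K : Type u} [Field K] {V : ValuationSubring K} {A : Subring K}
    (h : IsDivergent V A) : Dv V (qseq V A) := by
  rw [← quadraticSequence_eq]
  exact dv_of_lt h

/-- The projective models which are regular at the centre of one valuation. -/
lemma one {F : Type u} [Field F] [CharZero F] (O : Subring F) [IsDedekindDomain O]
    (W : Set F) (hW : W.Finite) (E : Subfield F) (N r δ e : ℕ) (he : 1 ≤ e) (x : Fin N → F)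
    (hx : DegreeAtMost E x r δ) (hWx : IsDefinedInDegree O E x e W)
    (p : ℕ) (hpp : p.Prime) (hp : (δ * e ^ r) ^ 2 ^ r < p) (V : ValuationSubring F)
    (hOV : ∀ a ∈ O, a ∈ V) (hpV : V.valuation (p : F) < 1)
    (htop : ∀ a : F, ∃ n : ℕ, (p : F) ^ n * a ∈ V)
    (hEV : IsAdmissible (O.comap E.subtype) (V.comap E.subtype)) :
    ∃ Y, Pool.Agent.R187.CT.Vc O (p : F) W Y ∧
      Pool.Agent.R187.CT.Rc V O (Pool.Agent.H176.DT.bu W Y) (p : F) := by
  obtain ⟨htop', htr, C, hC⟩ := hx
  obtain ⟨⟨w₀, hw₀, hw₀0⟩, hWp, T, hT, hE, hTA⟩ := hWx
  have hOc : CharZero O := ⟨fun m n h => by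
    have h1 := congrArg Subtype.val h
    push_cast at h1
    exact_mod_cast h1⟩
  have hR : HJ O := hj_dedekind
  have hOE : ∀ a : O, (a : F) ∈ E := by
    intro a
    rw [hE]
    exact Subfield.subset_closure (Or.inl a.2)
  -- the restriction to `E`
  let ρ : O →+* E := O.subtype.codRestrict E.toSubring hOE
  have hρO : ((ρ.range : Subring E) : Set E) = (O.comap E.subtype : Set E) := by
    ext z
    constructor
    · rintro ⟨a, rfl⟩
      exact a.2
    · intro hz
      exact ⟨⟨(z : F), hz⟩, rfl⟩
  have hgen : ∃ S : Set E, S.Finite ∧ ∀ z : E, Fr (Pool.Agent.R187.CT.rg ρ S) z := by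
    refine ⟨E.subtype ⁻¹' T, hT.preimage (E.subtype.injective.injOn), fun z => ?_⟩
    have h1 : Subfield.closure ((O : Set F) ∪ T) ≤
        (fr (Pool.Agent.R187.CT.rg ρ (E.subtype ⁻¹' T))).map E.subtype := by
      rw [Subfield.closure_le]
      rintro x (hx | hx)
      · exact ⟨ρ ⟨x, hx⟩, le_fr _ (Subring.subset_closure (Or.inl ⟨⟨x, hx⟩, rfl⟩)), rfl⟩
      · have hxE : x ∈ E := by
          rw [hE]
          exact Subfield.subset_closure (Or.inr hx)
        exact ⟨⟨x, hxE⟩, le_fr _ (Subring.subset_closure (Or.inr hx)), rfl⟩
    rw [← hE] at h1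
    obtain ⟨y, hy, hyz⟩ := h1 z.2
    have h2 : y = z := E.subtype.injective hyz
    rw [h2] at hy
    exact Pool.Agent.R187.CT.fr_iff.2 hy
  have hgE : Pool.Agent.R187.CT.Good ρ (V.comap (algebraMap E F)) := by
    have h1 : ∀ T : Set E, Pool.Agent.R187.CT.rg ρ T =
        Subring.closure (((O.comap E.subtype : Subring E) : Set E) ∪ T) := by
      intro T
      change Subring.closure (((ρ.range : Subring E) : Set E) ∪ T) = _
      rw [hρO]
    rcases hEV with h | h | h
    · exact Pool.Agent.R187.CT.good_dv hR ρ _ (Or.inl h)
    · refine Pool.Agent.R187.CT.good_dv hR ρ _ (Or.inr fun T hT hTV => ?_)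
      rw [h1] at hTV ⊢
      exact (h T hT hTV).dv
    · refine Pool.Agent.R187.CT.good_given hR ρ _ hgen fun T hT hTV hTE => ?_
      rw [h1] at hTV hTE ⊢
      exact h T hT hTV hTE
  have hinf : Infinite E := by
    have h1 : CharZero E := ⟨fun m n h => by
      have h2 := congrArg Subtype.val h
      push_cast at h2
      exact_mod_cast h2⟩
    exact CharZero.infinite E
  -- the chart
  obtain ⟨w, hw, hwm⟩ := Set.exists_max_image W V.valuation hW ⟨w₀, hw₀⟩
  have hw0 : w ≠ 0 := by
    rintro rfl
    have h1 := hwm w₀ hw₀
    rw [map_zero, le_zero_iff, map_eq_zero] at h1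
    exact hw₀0 h1
  have hwV : ∀ v ∈ W, v / w ∈ V := by
    intro v hv
    rw [← V.valuation_le_one_iff, map_div₀]
    exact (div_le_one₀ (zero_lt_iff.2 ((map_ne_zero _).2 hw0))).2 (hwm v hv)
  have hp0 : (p : F) ≠ 0 := Nat.cast_ne_zero.2 hpp.ne_zero
  have hpE : IsProduct E x e (p : F) := by
    have h1 := Pool.Agent.N98.SS.pprod_const (E := E) (K := F) (x := x) (e := e) (p : E)
    rwa [map_natCast] at h1
  have hprimes : ∀ q : ℕ, q.Prime → q ≤ (δ * e ^ r) ^ 2 ^ r → V.valuation (q : F) = 1 := by
    intro q hq hqb
    have hne : p ≠ q := by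
      rintro rfl
      exact absurd hp (not_lt.2 hqb)
    have hcop : Nat.Coprime p q := (Nat.coprime_primes hpp hq).2 hne
    have h1 : (Nat.gcdA p q : ℤ) * p + (Nat.gcdB p q : ℤ) * q = 1 := by
      have h2 := Nat.gcd_eq_gcd_ab p q
      rw [hcop.gcd_eq_one] at h2
      push_cast at h2
      linarith
    refine le_antisymm ((V.valuation_le_one_iff _).2 (natCast_mem V q)) ?_
    by_contra hcon
    push Not at hcon
    have h2 : ((Nat.gcdA p q : ℤ) : F) * (p : F) + ((Nat.gcdB p q : ℤ) : F) * (q : F) = 1 := by
      exact_mod_cast congrArg (Int.cast (R := F)) h1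
    have h3 : V.valuation (1 : F) < 1 := by
      rw [← h2]
      have h5 : ∀ (a : ℤ) (x : F), V.valuation x < 1 → V.valuation ((a : F) * x) < 1 := by
        intro a x hx
        rw [map_mul]
        calc V.valuation (a : F) * V.valuation x
            ≤ 1 * V.valuation x :=
              mul_le_mul' ((V.valuation_le_one_iff _).2 (intCast_mem _ _)) le_rfl
          _ < 1 := by rw [one_mul]; exact hx
      exact lt_of_le_of_lt (V.valuation.map_add _ _) (max_lt (h5 _ _ hpV) (h5 _ _ hcon))
    rw [map_one] at h3
    exact lt_irrefl _ h3
  obtain ⟨hxA, hTA'⟩ := hTA w hw hw0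
  obtain ⟨hMod, T', n, X, hSt, hmon⟩ := Pool.Agent.N98.SS.stage_of_model' V O
    (fun a ha => hOV a ha) hR E he x htop' htr C hC hprimes hW hWp hw hwV hxA hT hE
    hTA' hOE hgE {(p : F)} (Set.finite_singleton _) (by
      rintro g rfl
      exact ⟨hp0, natCast_mem V p, hpE⟩)
  obtain ⟨Y, d, n, h1, h2, h3, w', h4, h5, h6, h7⟩ :=
    Pool.Agent.N98.SS.model_at_of V O hOV hW hw hw0 hwV hSt (hmon _ rfl) (natCast_mem _ p) htop
  exact ⟨Y, ⟨h1, d, n, h2, h3⟩, w', h4, h5, h6, h7⟩

/-- Let `F` be a field of characteristic zero, let `O ⊆ F` be a Dedekind domain (for example, `ℤ`),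
and let `W ⊆ F` be a finite set of homogeneous coordinates of the integral projective scheme
`𝒳 = Proj O[W]` with the function field `F`. Let `E ⊆ F` be a subfield, finitely generated over `O`
(for example, the fraction field of `O`), and let `x` be the generic point of an affine variety over
`E` with the function field `F`, of dimension `r` and degree at most `δ`, such that `𝒳` is defined in
degree `e ≥ 1`. Let `S` be a finite set of primes `p > (δ e ^ r) ^ 2 ^ r`, and for all `p ∈ S` let
`V p ⊇ O` be a valuation ring of `F`, of any rank, with `|p| < 1` and `F = (V p)[1/p]`, whose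
restriction to `E` is a discrete valuation ring, or has divergent sequences of quadratic transforms,
or is log uniformizable on all models of `E`.

Then there is a closed subscheme of `𝒳`, contained in the union of the fibres over the `p ∈ S`, such
that the blowing-up of `𝒳` in this subscheme is, for all `p ∈ S`, regular at the centres of `V p` and
of all valuation rings `V₁ ⊇ V p`, with a fibre over `p` with normal crossings there. -/
theorem result {F : Type u} [Field F] [CharZero F] (O : Subring F) [IsDedekindDomain O]
    (W : Set F) (hW : W.Finite) (E : Subfield F) (N r δ e : ℕ) (he : 1 ≤ e) (x : Fin N → F)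
    (hx : DegreeAtMost E x r δ) (hWx : IsDefinedInDegree O E x e W)
    (S : Finset ℕ) (hS : ∀ p ∈ S, p.Prime) (hp : ∀ p ∈ S, (δ * e ^ r) ^ 2 ^ r < p)
    (V : ℕ → ValuationSubring F) (hOV : ∀ p ∈ S, ∀ a ∈ O, a ∈ V p)
    (hpV : ∀ p ∈ S, (V p).valuation (p : F) < 1)
    (htop : ∀ p ∈ S, ∀ a : F, ∃ n : ℕ, (p : F) ^ n * a ∈ V p)
    (hEV : ∀ p ∈ S, IsAdmissible (O.comap E.subtype) ((V p).comap E.subtype)) :
    ∃ Y : Set F, IsVerticalCentre O ((∏ p ∈ S, p : ℕ) : F) W Y ∧
      ∀ p ∈ S, ∀ V₁ : ValuationSubring F, V p ≤ V₁ →
        IsRegularAtCentre V₁ O (blowUpCoordinates W Y) (p : F) := by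
  obtain ⟨Y, hY1, hY2⟩ := Pool.Agent.N98.SS.multi_prod O S hS V hOV hpV W fun p hpS =>
    one O W hW E N r δ e he x hx hWx p (hS p hpS) (hp p hpS) (V p) (hOV p hpS) (hpV p hpS)
      (htop p hpS) (hEV p hpS)
  refine ⟨Y, hY1, fun p hpS V₁ hV₁ => ?_⟩
  obtain ⟨w, hw, hw0, hwV, hNC⟩ := hY2 p hpS
  refine ⟨w, hw, hw0, fun v hv => hV₁ (hwV v hv), ?_⟩
  refine Pool.Agent.N98.SS.nc_coarse (V p) V₁ hV₁ _ ?_ (p : F) hNC
  unfold chart
  rw [Subring.closure_le]
  rintro z (hz | ⟨y, hy, rfl⟩)
  · exact hOV p hpS z hz
  · exact hwV y hy

end Pool.Agent.Results.MP_602153_ag.BoundedDegreeAtValuations
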